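import Pool.Agent.Helper20.QP.St2

/-!
Project QD part P (MP_d112a4_gt), module MAC: a map which is multiplicative on a large ball
extends to a homomorphism.
-/

set_option autoImplicit false

open Filter Topology Matrix Set Metric
open scoped ComplexConjugate ENNReal

namespace Pool.Agent.Helper29.QP

open Pool.Agent.Helper35.PM (hs Mat SL IsDiscrete)
open Pool.Agent.Helper20.QD Pool.Agent.Helper20.QP

private theorem zD : (0 : ℂ) ∈ D := by
  simp [D]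

private theorem mobD (hSUB : StSUB) {A : SL} (hA : IsSU A) {z : ℂ} (hz : z ∈ D) : mob A z ∈ D :=
  (hSUB.1 A hA).2.2.1.mapsTo hz

private theorem mobC (hSUB : StSUB) (A : SL) {B : SL} (hB : IsSU B) {z : ℂ} (hz : z ∈ D) :
    mob (A * B) z = mob A (mob B z) :=
  (hSUB.2.2.2.1 A B z ((hSUB.1 B hB).2.1 z (ball_subset_closedBall hz))).1

private theorem mob1 (z : ℂ) : mob (1 : SL) z = z := by
  simp [mob]

private theorem hdI (hMET : StMET) {A : SL} (hA : IsSU A) {z w : ℂ} (hz : z ∈ D) (hw : w ∈ D) :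
    hd (mob A z) (mob A w) = hd z w := by
  unfold hd
  rw [hMET.1 A z w hA hz hw]

private theorem hdT (hMET : StMET) {z w u : ℂ} (hz : z ∈ D) (hw : w ∈ D) (hu : u ∈ D) :
    hd z w ≤ hd z u + hd u w := (hMET.2.1 z w u hz hw hu).2.2.2.2.2

private theorem hdS (hMET : StMET) {z w : ℂ} (hz : z ∈ D) (hw : w ∈ D) :
    hd z w = hd w z := (hMET.2.1 z w z hz hw hz).2.2.1

private theorem hd0 (hMET : StMET) {z w : ℂ} (hz : z ∈ D) (hw : w ∈ D) :
    0 ≤ hd z w := (hMET.2.1 z w z hz hw hz).1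

private theorem dlE (hMET : StMET) {z w : ℂ} (hz : z ∈ D) (hw : w ∈ D) :
    Real.sinh (hd z w / 2) ^ 2 = dl z w := (hMET.2.1 z w z hz hw hz).2.1

private theorem hd_le {z w : ℂ} {c : ℝ} (h : dl z w ≤ c) :
    hd z w ≤ 2 * Real.arsinh (Real.sqrt c) := by
  unfold hd
  have h1 : Real.arsinh (Real.sqrt (dl z w)) ≤ Real.arsinh (Real.sqrt c) :=
    Real.arsinh_le_arsinh.2 (Real.sqrt_le_sqrt h)
  linarith

private theorem dl_le (hMET : StMET) {z w : ℂ} (hz : z ∈ D) (hw : w ∈ D) {h : ℝ}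
    (hh : hd z w ≤ h) : dl z w ≤ Real.sinh (h / 2) ^ 2 := by
  rw [← dlE hMET hz hw]
  have h0 := hd0 hMET hz hw
  have h1 : 0 ≤ Real.sinh (hd z w / 2) := Real.sinh_nonneg_iff.2 (by linarith)
  have h2 : Real.sinh (hd z w / 2) ≤ Real.sinh (h / 2) := Real.sinh_le_sinh.2 (by linarith)
  exact pow_le_pow_left₀ h1 h2 2

private theorem hs_le (hSUB : StSUB) (hMET : StMET) {A : SL} (hA : IsSU A) {h : ℝ}
    (hh : hd 0 (mob A 0) ≤ h) : hs (A : Mat) ≤ 2 + 4 * Real.sinh (h / 2) ^ 2 := by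
  rw [hMET.2.2.2.2.1 A hA]
  have := dl_le hMET zD (mobD hSUB hA zD) hh
  linarith

private theorem hd_of_hs (hMET : StMET) {A : SL} (hA : IsSU A) {X : ℝ} (h : hs (A : Mat) ≤ X) :
    hd 0 (mob A 0) ≤ 2 * Real.arsinh (Real.sqrt ((X - 2) / 4)) := by
  rw [hMET.2.2.2.2.1 A hA] at h
  exact hd_le (by linarith)

/-- small steps on a segment -/
private theorem seg {p : ℂ} (hp : p ∈ D) {J : ℕ} (hJ : 1 ≤ (J : ℝ) * (1 - ‖p‖ ^ 2)) {j : ℕ}
    (hj : j < J) :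
    (((j : ℝ) / J : ℝ) : ℂ) * p ∈ D ∧ ((((j + 1 : ℕ) : ℝ) / J : ℝ) : ℂ) * p ∈ D ∧
    dl ((((j : ℝ) / J : ℝ) : ℂ) * p) (((((j + 1 : ℕ) : ℝ) / J : ℝ) : ℂ) * p) ≤ 1 := by
  have hp1 : ‖p‖ < 1 := by simpa [D] using hp
  have hp0 : 0 ≤ ‖p‖ := norm_nonneg p
  have hJ0 : (0 : ℝ) < J := by
    have : 0 < J := by omega
    exact_mod_cast this
  have hle : ∀ k : ℕ, k ≤ J → ‖(((k : ℝ) / J : ℝ) : ℂ) * p‖ ≤ ‖p‖ := by
    intro k hk
    rw [norm_mul, Complex.norm_real, Real.norm_of_nonneg (by positivity)]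
    have h1 : (k : ℝ) / J ≤ 1 := by
      rw [div_le_one hJ0]
      exact_mod_cast hk
    exact mul_le_of_le_one_left hp0 h1
  have hm : 0 < 1 - ‖p‖ ^ 2 := by nlinarith
  have hf : ∀ k : ℕ, k ≤ J → 1 - ‖p‖ ^ 2 ≤ 1 - ‖(((k : ℝ) / J : ℝ) : ℂ) * p‖ ^ 2 := by
    intro k hk
    have := pow_le_pow_left₀ (norm_nonneg _) (hle k hk) 2
    linarith
  have hD : ∀ k : ℕ, k ≤ J → (((k : ℝ) / J : ℝ) : ℂ) * p ∈ D := by
    intro k hk
    rw [mem_ball_zero_iff]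
    exact lt_of_le_of_lt (hle k hk) hp1
  refine ⟨hD j hj.le, hD (j + 1) hj, ?_⟩
  unfold dl
  have h1 := hf j hj.le
  have h2 := hf (j + 1) hj
  have hd : ‖(((j : ℝ) / J : ℝ) : ℂ) * p - ((((j + 1 : ℕ) : ℝ) / J : ℝ) : ℂ) * p‖ ≤ 1 - ‖p‖ ^ 2 := by
    have e : (((j : ℝ) / J : ℝ) : ℂ) * p - ((((j + 1 : ℕ) : ℝ) / J : ℝ) : ℂ) * p =
        -(((1 / J : ℝ) : ℂ) * p) := by
      push_cast
      ring
    rw [e, norm_neg, norm_mul, Complex.norm_real, Real.norm_of_nonneg (by positivity)]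
    calc 1 / (J : ℝ) * ‖p‖ ≤ 1 / (J : ℝ) * 1 := by
          apply mul_le_mul_of_nonneg_left hp1.le (by positivity)
      _ = 1 / (J : ℝ) := mul_one _
      _ ≤ 1 - ‖p‖ ^ 2 := by
          rw [div_le_iff₀ hJ0]
          linarith
  rw [div_le_one (mul_pos (by linarith) (by linarith))]
  calc ‖(((j : ℝ) / J : ℝ) : ℂ) * p - ((((j + 1 : ℕ) : ℝ) / J : ℝ) : ℂ) * p‖ ^ 2
      ≤ (1 - ‖p‖ ^ 2) ^ 2 := pow_le_pow_left₀ (norm_nonneg _) hd 2
    _ = (1 - ‖p‖ ^ 2) * (1 - ‖p‖ ^ 2) := by ring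
    _ ≤ _ := mul_le_mul h1 h2 hm.le (by linarith)

theorem hMAC (hSUB : StSUB) (hMET : StMET) (hGEN : StGEN) (hMCA : StMCA) : StMAC := by
  intro b X' hb
  obtain ⟨Xg, hXg⟩ := hGEN b hb
  obtain ⟨Xm, hXm⟩ := hMCA b hb
  obtain ⟨X2, hX2⟩ : ∃ X2 : ℝ, X2 = max X' Xg := ⟨_, rfl⟩
  obtain ⟨β, hβ⟩ : ∃ β : ℝ, β = 2 * Real.arsinh (Real.sqrt b) := ⟨_, rfl⟩
  obtain ⟨h', hh'⟩ : ∃ h' : ℝ, h' = 2 * Real.arsinh (Real.sqrt ((X2 - 2) / 4)) := ⟨_, rfl⟩
  obtain ⟨o, ho⟩ : ∃ o : ℝ, o = 2 * Real.arsinh (Real.sqrt 1) := ⟨_, rfl⟩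
  have hβ0 : 0 ≤ β := by
    rw [hβ]
    have := Real.arsinh_nonneg_iff.2 (Real.sqrt_nonneg b)
    linarith
  have hh0 : 0 ≤ h' := by
    rw [hh']
    have := Real.arsinh_nonneg_iff.2 (Real.sqrt_nonneg ((X2 - 2) / 4))
    linarith
  have ho0 : 0 ≤ o := by
    rw [ho]
    have := Real.arsinh_nonneg_iff.2 (Real.sqrt_nonneg 1)
    linarith
  obtain ⟨h1, hh1⟩ : ∃ h1 : ℝ, h1 = 2 * β + o + 2 * h' := ⟨_, rfl⟩
  obtain ⟨X, hX⟩ : ∃ X : ℝ, X = max (max Xm X2) (2 + 4 * Real.sinh (h1 / 2) ^ 2) := ⟨_, rfl⟩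
  have hXX2 : X2 ≤ X := by
    rw [hX]
    exact (le_max_right _ _).trans (le_max_left _ _)
  have hXXm : Xm ≤ X := by
    rw [hX]
    exact (le_max_left _ _).trans (le_max_left _ _)
  have hX2' : X' ≤ X2 := by rw [hX2]; exact le_max_left _ _
  have hX2g : Xg ≤ X2 := by rw [hX2]; exact le_max_right _ _
  refine ⟨X, hX2'.trans hXX2, ?_⟩
  intro Γ _ σ hF hC G _ f hf
  have hsu := hF.su
  have hC' := hC
  choose! g hg using hC'
  obtain ⟨a, haa⟩ : ∃ a : ℂ → Γ, a = fun z => (g z)⁻¹ := ⟨_, rfl⟩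
  have ha : ∀ z ∈ D, dl 0 (mob (σ (a z)⁻¹) z) ≤ b := by
    intro z hz
    rw [haa]
    simp only [inv_inv]
    exact hg z hz
  obtain ⟨Φ, hΦ0, hΦ⟩ := hXm Γ σ a hF ha G f (fun γ δ e1 e2 e3 =>
    hf γ δ (e1.trans hXXm) (e2.trans hXXm) (e3.trans hXXm))
  have big : ∀ γ : Γ, hd 0 (mob (σ γ) 0) ≤ h1 → hs (σ γ : Mat) ≤ X := by
    intro γ h
    rw [hX]
    exact (hs_le hSUB hMET (hsu γ) h).trans (le_max_right _ _)
  -- the size of `γ⁻¹ δ`
  have size : ∀ γ δ : Γ, hd 0 (mob (σ (γ⁻¹ * δ)) 0) = hd (mob (σ γ) 0) (mob (σ δ) 0) := by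
    intro γ δ
    have e : mob (σ δ) 0 = mob (σ γ) (mob (σ (γ⁻¹ * δ)) 0) := by
      rw [← mobC hSUB _ (hsu _) zD, ← map_mul, mul_inv_cancel_left]
    rw [e, hdI hMET (hsu γ) zD (mobD hSUB (hsu _) zD)]
  have aβ : ∀ z ∈ D, hd (mob (σ (a z)) 0) z ≤ β := by
    intro z hz
    have e : mob (σ (a z)⁻¹) (mob (σ (a z)) 0) = 0 := by
      rw [← mobC hSUB _ (hsu _) zD, ← map_mul, inv_mul_cancel, map_one, mob1]
    have e2 := hdI hMET (hsu (a z)⁻¹) (mobD hSUB (hsu (a z)) zD) hz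
    rw [e] at e2
    rw [← e2, hβ]
    exact hd_le (ha z hz)
  have aβ' : ∀ z ∈ D, hd z (mob (σ (a z)) 0) ≤ β := by
    intro z hz
    rw [hdS hMET hz (mobD hSUB (hsu (a z)) zD)]
    exact aβ z hz
  -- sizes
  have s1 : ∀ x ∈ D, ∀ y ∈ D, dl x y ≤ 1 → hs (σ ((a x)⁻¹ * a y) : Mat) ≤ X := by
    intro x hx y hy hxy
    apply big
    rw [size]
    have t1 := hdT hMET (mobD hSUB (hsu (a x)) zD) (mobD hSUB (hsu (a y)) zD) hx
    have t2 := hdT hMET hx (mobD hSUB (hsu (a y)) zD) hy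
    have t3 := aβ x hx
    have t4 := aβ' y hy
    have t5 : hd x y ≤ o := by rw [ho]; exact hd_le hxy
    rw [hh1]
    linarith
  have s2 : ∀ (γ : Γ), ∀ y ∈ D, hd y (mob (σ γ) 0) ≤ h' → hs (σ ((a y)⁻¹ * γ) : Mat) ≤ X := by
    intro γ y hy hyy
    apply big
    rw [size]
    have t1 := hdT hMET (mobD hSUB (hsu (a y)) zD) (mobD hSUB (hsu γ) zD) hy
    have t3 := aβ y hy
    rw [hh1]
    linarith
  have one_ball : hs (σ (1 : Γ) : Mat) ≤ X := by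
    apply big
    rw [map_one, mob1]
    have h : dl 0 0 ≤ 0 := by simp [dl]
    have := hd_le h
    rw [Real.sqrt_zero, Real.arsinh_zero, mul_zero] at this
    rw [hh1]
    linarith
  have f1 : f 1 = 1 := by
    have h := hf 1 1 one_ball one_ball (by rw [mul_one]; exact one_ball)
    rw [mul_one] at h
    exact (mul_eq_left.1 h.symm)
  obtain ⟨F, hFdef⟩ : ∃ F : Γ → G, F = fun γ => f (a 0) * Φ (mob (σ γ) 0) *
    f ((a (mob (σ γ) 0))⁻¹ * γ) := ⟨_, rfl⟩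
  have F1 : F 1 = 1 := by
    rw [hFdef]
    show f (a 0) * Φ (mob (σ 1) 0) * f ((a (mob (σ 1) 0))⁻¹ * 1) = 1
    rw [map_one, mob1, hΦ0, mul_one, mul_one]
    have i1 : hs (σ (a 0) : Mat) ≤ X := by
      apply big
      have := aβ' 0 zD
      rw [hh1]
      linarith
    have i2 : hs (σ (a 0)⁻¹ : Mat) ≤ X := by
      have h := s2 1 0 zD (by
        rw [map_one, mob1]
        have h : dl 0 0 ≤ 0 := by simp [dl]
        have := hd_le h
        rw [Real.sqrt_zero, Real.arsinh_zero, mul_zero] at this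
        linarith)
      rwa [mul_one] at h
    have h := hf (a 0) (a 0)⁻¹ i1 i2 (by rw [mul_inv_cancel]; exact one_ball)
    rw [mul_inv_cancel, f1] at h
    exact h.symm
  -- the claim
  have key : ∀ (γ s : Γ), hs (σ s : Mat) ≤ X2 → F (γ * s) = F γ * f s := by
    intro γ s hs2
    have hsh : hd 0 (mob (σ s) 0) ≤ h' := by
      rw [hh']
      exact hd_of_hs hMET (hsu s) hs2
    obtain ⟨p, hp⟩ : ∃ p : ℂ, p = mob (σ s) 0 := ⟨_, rfl⟩
    have hpD : p ∈ D := by rw [hp]; exact mobD hSUB (hsu s) zD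
    rw [← hp] at hsh
    have hp1 : ‖p‖ < 1 := by simpa [D] using hpD
    have hm : 0 < 1 - ‖p‖ ^ 2 := by nlinarith [norm_nonneg p]
    obtain ⟨J, hJ⟩ := exists_nat_ge (1 / (1 - ‖p‖ ^ 2))
    rw [div_le_iff₀ hm] at hJ
    have hJ0 : (0 : ℝ) < J := by
      by_contra hc
      push Not at hc
      have : (J : ℝ) * (1 - ‖p‖ ^ 2) ≤ 0 := mul_nonpos_of_nonpos_of_nonneg hc hm.le
      linarith
    obtain ⟨x, hx⟩ : ∃ x : ℕ → ℂ, x = fun j : ℕ => (((j : ℝ) / J : ℝ) : ℂ) * p :=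
      ⟨_, rfl⟩
    obtain ⟨y, hy⟩ : ∃ y : ℕ → ℂ, y = fun j => mob (σ γ) (x j) := ⟨_, rfl⟩
    have hxD : ∀ j ≤ J, x j ∈ D := by
      intro j hj
      rw [hx]
      rcases Nat.lt_or_ge j J with h | h
      · exact (seg hpD hJ h).1
      · have e : j = J := le_antisymm hj h
        subst e
        show (((j : ℝ) / j : ℝ) : ℂ) * p ∈ D
        rw [div_self hJ0.ne', Complex.ofReal_one, one_mul]
        exact hpD
    have hyD : ∀ j ≤ J, y j ∈ D := by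
      intro j hj
      rw [hy]
      exact mobD hSUB (hsu γ) (hxD j hj)
    have hy0 : y 0 = mob (σ γ) 0 := by
      rw [hy, hx]
      simp
    have hyJ : y J = mob (σ (γ * s)) 0 := by
      rw [hy, hx]
      show mob (σ γ) ((((J : ℝ) / J : ℝ) : ℂ) * p) = _
      rw [div_self hJ0.ne', Complex.ofReal_one, one_mul, hp, map_mul, mobC hSUB _ (hsu s) zD]
    have hstep : ∀ j < J, dl (y j) (y (j + 1)) ≤ 1 := by
      intro j hj
      rw [hy]
      show dl (mob (σ γ) (x j)) (mob (σ γ) (x (j + 1))) ≤ 1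
      rw [hMET.1 (σ γ) _ _ (hsu γ) (hxD j hj.le) (hxD (j + 1) hj), hx]
      exact (seg hpD hJ hj).2.2
    have hfar : ∀ j ≤ J, hd (y j) (mob (σ γ) 0) ≤ h' := by
      intro j hj
      rw [hdS hMET (hyD j hj) (mobD hSUB (hsu γ) zD), hy]
      show hd (mob (σ γ) 0) (mob (σ γ) (x j)) ≤ h'
      rw [hdI hMET (hsu γ) zD (hxD j hj)]
      refine le_trans ?_ hsh
      have hs0 : (0 : ℝ) ≤ (j : ℝ) / J := by positivity
      have hs1 : (j : ℝ) / J ≤ 1 := by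
        rw [div_le_one hJ0]
        exact_mod_cast hj
      have h4 := hMET.2.2.2.1 0 p ((j : ℝ) / J) zD hpD hs0 hs1
      rw [mul_zero] at h4
      have h5 : dl 0 (x j) ≤ dl 0 p := by rw [hx]; exact h4
      unfold hd
      have h6 : Real.arsinh (Real.sqrt (dl 0 (x j))) ≤ Real.arsinh (Real.sqrt (dl 0 p)) :=
        Real.arsinh_le_arsinh.2 (Real.sqrt_le_sqrt h5)
      linarith
    -- the product does not depend on `j`
    have hc : ∀ j ≤ J, Φ (y j) * f ((a (y j))⁻¹ * γ) = Φ (y 0) * f ((a (y 0))⁻¹ * γ) := by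
      intro j
      induction j with
      | zero => intro _; rfl
      | succ j ih =>
        intro hj
        have hj' : j < J := hj
        rw [← ih hj'.le, hΦ (y j) (hyD j hj'.le) (y (j + 1)) (hyD (j + 1) hj) (hstep j hj'),
          mul_assoc]
        congr 1
        have e1 := s1 (y j) (hyD j hj'.le) (y (j + 1)) (hyD (j + 1) hj) (hstep j hj')
        have e2 := s2 γ (y (j + 1)) (hyD (j + 1) hj) (hfar (j + 1) hj)
        have e3 := s2 γ (y j) (hyD j hj'.le) (hfar j hj'.le)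
        have e4 : (a (y j))⁻¹ * a (y (j + 1)) * ((a (y (j + 1)))⁻¹ * γ) = (a (y j))⁻¹ * γ := by
          group
        have h := hf ((a (y j))⁻¹ * a (y (j + 1))) ((a (y (j + 1)))⁻¹ * γ) e1 e2 (by
          rw [e4]; exact e3)
        rw [e4] at h
        exact h.symm
    have hcJ := hc J le_rfl
    -- the last factor
    have hlast : f ((a (y J))⁻¹ * (γ * s)) = f ((a (y J))⁻¹ * γ) * f s := by
      have e1 := s2 γ (y J) (hyD J le_rfl) (hfar J le_rfl)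
      have e2 : hs (σ s : Mat) ≤ X := hs2.trans hXX2
      have e3 : hs (σ ((a (y J))⁻¹ * (γ * s)) : Mat) ≤ X := by
        apply big
        rw [size, ← hyJ]
        have := aβ (y J) (hyD J le_rfl)
        rw [hh1]
        linarith
      have h := hf ((a (y J))⁻¹ * γ) s e1 e2 (by rw [mul_assoc]; exact e3)
      rw [mul_assoc] at h
      exact h
    rw [hFdef]
    show f (a 0) * Φ (mob (σ (γ * s)) 0) * f ((a (mob (σ (γ * s)) 0))⁻¹ * (γ * s)) =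
      f (a 0) * Φ (mob (σ γ) 0) * f ((a (mob (σ γ) 0))⁻¹ * γ) * f s
    rw [← hyJ, ← hy0, hlast, ← mul_assoc, mul_assoc (f (a 0)), hcJ, ← mul_assoc]
  have Ff : ∀ s : Γ, hs (σ s : Mat) ≤ X2 → F s = f s := by
    intro s h
    have := key 1 s h
    rw [one_mul, F1, one_mul] at this
    exact this
  have hmul : ∀ δ γ : Γ, F (γ * δ) = F γ * F δ := by
    intro δ
    have hmem : δ ∈ Subgroup.closure {γ : Γ | hs (σ γ : Mat) ≤ Xg} := by
      rw [hXg Γ σ hF hC]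
      trivial
    induction hmem using Subgroup.closure_induction with
    | mem s h =>
      intro γ
      have h2 : hs (σ s : Mat) ≤ X2 := le_trans h hX2g
      rw [key γ s h2, Ff s h2]
    | one => intro γ; rw [mul_one, F1, mul_one]
    | mul δ δ' _ _ h1 h2 =>
      intro γ
      rw [← mul_assoc, h2, h1, h2 δ, mul_assoc]
    | inv δ _ h =>
      intro γ
      have e1 : F γ = F (γ * δ⁻¹) * F δ := by
        rw [← h, inv_mul_cancel_right]
      have e2 : F 1 = F δ⁻¹ * F δ := by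
        rw [← h, inv_mul_cancel]
      rw [F1] at e2
      have e3 : F δ⁻¹ = (F δ)⁻¹ := eq_inv_of_mul_eq_one_left e2.symm
      rw [e3, e1, mul_inv_cancel_right]
  exact ⟨⟨⟨F, F1⟩, fun γ δ => hmul δ γ⟩, fun γ h => Ff γ (h.trans hX2')⟩

end Pool.Agent.Helper29.QP
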