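import Pool.Agent.Helper20.QP.St3

/-!
# Project QD, PART P, module BCH: change of base
-/

set_option autoImplicit false

open Filter Topology Matrix Set Metric MeasureTheory
open scoped ComplexConjugate ENNReal

namespace Pool.Agent.Helper29.QP

open Pool.Agent.Helper35.PM Pool.Agent.Helper20.QD Pool.Agent.Helper20.QP
open Pool.Agent.Helper68.QC (nq Bel InvB Intw Sol)

namespace BCH

/-! ### reflection of a coefficient in the unit circle -/

/-- reflection of a coefficient -/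
noncomputable def mus (τ : ℂ → ℂ) (z : ℂ) : ℂ :=
  if ‖z‖ < 1 then τ z else if 1 < ‖z‖ then conj (τ (1 / conj z)) * (z ^ 2 / conj z ^ 2) else 0

lemma mus_in {τ : ℂ → ℂ} {z : ℂ} (h : ‖z‖ < 1) : mus τ z = τ z := if_pos h

lemma mus_out {τ : ℂ → ℂ} {z : ℂ} (h : 1 < ‖z‖) :
    mus τ z = conj (τ (1 / conj z)) * (z ^ 2 / conj z ^ 2) := by
  unfold mus
  rw [if_neg (by linarith), if_pos h]

lemma mus_on {τ : ℂ → ℂ} {z : ℂ} (h : ‖z‖ = 1) : mus τ z = 0 := by
  unfold mus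
  rw [if_neg (by linarith), if_neg (by linarith)]

lemma meas_conj : Measurable (fun z : ℂ => conj z) := Complex.continuous_conj.measurable

lemma mus_bel {τ : ℂ → ℂ} {k : ℝ} (hk : 0 ≤ k) (h : Bel k τ) : Bel k (mus τ) := by
  refine ⟨?_, fun z => ?_⟩
  · have m1 : Measurable (fun z : ℂ => 1 / conj z) := measurable_const.div meas_conj
    have m2 : Measurable (fun z : ℂ => τ (1 / conj z)) := h.meas.comp m1
    have m3 : Measurable (fun z : ℂ => conj (τ (1 / conj z))) := meas_conj.comp m2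
    have m4 : Measurable (fun z : ℂ => z ^ 2 / conj z ^ 2) :=
      (measurable_id.pow_const 2).div (meas_conj.pow_const 2)
    have m5 : Measurable (fun z : ℂ => conj (τ (1 / conj z)) * (z ^ 2 / conj z ^ 2)) := m3.mul m4
    exact Measurable.ite (measurableSet_lt measurable_norm measurable_const) h.meas
      (Measurable.ite (measurableSet_lt measurable_const measurable_norm) m5 measurable_const)
  · rcases lt_trichotomy ‖z‖ 1 with h1 | h1 | h1
    · rw [mus_in h1]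
      exact h.le z
    · rw [mus_on h1, norm_zero]
      exact hk
    · have h2 : (0 : ℝ) < ‖z‖ := by linarith
      rw [mus_out h1, norm_mul, norm_div, norm_pow, norm_pow, RCLike.norm_conj, RCLike.norm_conj,
        div_self (by positivity), mul_one]
      exact h.le _

lemma mus_sym (τ : ℂ → ℂ) (z : ℂ) :
    mus τ (1 / conj z) * conj z ^ 2 = conj (mus τ z) * z ^ 2 := by
  by_cases hz : z = 0
  · subst hz
    simp
  have hz' : conj z ≠ 0 := by simpa using hz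
  have hn : 0 < ‖z‖ := norm_pos_iff.2 hz
  have hni : ‖1 / conj z‖ = 1 / ‖z‖ := by rw [norm_div, norm_one, RCLike.norm_conj]
  have hcc : conj (1 / conj z) = 1 / z := by simp
  rcases lt_trichotomy ‖z‖ 1 with h1 | h1 | h1
  · have h2 : 1 < ‖1 / conj z‖ := by
      rw [hni, lt_div_iff₀ hn]
      linarith
    rw [mus_out h2, mus_in h1, hcc, one_div_one_div]
    field_simp
  · have h2 : ‖1 / conj z‖ = 1 := by rw [hni, h1]; norm_num
    rw [mus_on h2, mus_on h1]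
    simp
  · have h2 : ‖1 / conj z‖ < 1 := by
      rw [hni, div_lt_one hn]
      exact h1
    rw [mus_in h2, mus_out h1]
    simp only [map_mul, map_div₀, map_pow, Complex.conj_conj]
    field_simp

lemma refl_den {A : SL} (hA : IsSU A) {z : ℂ} (hz : z ≠ 0) :
    den A (1 / conj z) = conj ((A : Mat) 0 0 * z + (A : Mat) 0 1) / conj z := by
  have hz' : conj z ≠ 0 := by simpa using hz
  unfold den
  rw [hA.1, hA.2]
  simp only [map_add, map_mul]
  field_simp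
  ring

lemma refl_num {A : SL} (hA : IsSU A) {z : ℂ} (hz : z ≠ 0) :
    (A : Mat) 0 0 * (1 / conj z) + (A : Mat) 0 1 = conj (den A z) / conj z := by
  have hz' : conj z ≠ 0 := by simpa using hz
  unfold den
  rw [hA.1, hA.2]
  simp only [map_add, map_mul, Complex.conj_conj]
  field_simp
  ring

lemma refl_mob {A : SL} (hA : IsSU A) {z : ℂ} (hz : z ≠ 0) :
    mob A (1 / conj z) = 1 / conj (mob A z) := by
  have hz' : conj z ≠ 0 := by simpa using hz
  have h1 := refl_num hA hz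
  have h2 := refl_den hA hz
  unfold den at h2
  unfold mob
  rw [h1, h2, map_div₀, one_div_div, div_div_div_cancel_right₀ hz']
  rfl

lemma null_refl {E : Set ℂ} (hE : volume E = 0) :
    volume {z : ℂ | z ≠ 0 ∧ 1 / conj z ∈ E} = 0 := by
  have hs : {z : ℂ | z ≠ 0 ∧ 1 / conj z ∈ E} ⊆ (fun z : ℂ => (conj z)⁻¹) '' (E \ {0}) := by
    rintro z ⟨h1, h2⟩
    refine ⟨1 / conj z, ⟨h2, ?_⟩, ?_⟩
    · simpa using h1
    · simp
  refine measure_mono_null hs ?_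
  refine MeasureTheory.addHaar_image_eq_zero_of_differentiableOn_of_addHaar_eq_zero volume ?_
    (measure_mono_null sdiff_subset hE)
  intro z hz
  have hz0 : conj z ≠ 0 := by simpa using hz.2
  have h1 : DifferentiableAt ℝ (fun z : ℂ => conj z) z := Complex.conjCLE.differentiableAt
  exact (h1.inv hz0).differentiableWithinAt

lemma ae_refl {P : ℂ → Prop} (h : ∀ᵐ z : ℂ, P z) : ∀ᵐ z : ℂ, z ≠ 0 → P (1 / conj z) := by
  rw [ae_iff] at h ⊢
  refine measure_mono_null ?_ (null_refl h)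
  intro z hz
  have hz' : ¬ (z ≠ 0 → P (1 / conj z)) := hz
  push Not at hz'
  exact hz'

lemma mus_inv (hSUB : StSUB) {A : SL} (hA : IsSU A) {τ : ℂ → ℂ} (h : InvB A τ) :
    InvB A (mus τ) := by
  have hA' := hSUB.1 A hA
  have h' : ∀ᵐ z : ℂ, τ (mob A z) * den A z ^ 2 = τ z * conj (den A z) ^ 2 := h
  have h'' := ae_refl h'
  show ∀ᵐ z : ℂ, mus τ (mob A z) * den A z ^ 2 = mus τ z * conj (den A z) ^ 2
  filter_upwards [h', h''] with z h1 h2
  rcases lt_trichotomy ‖z‖ 1 with h3 | h3 | h3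
  · have h4 : ‖mob A z‖ < 1 := by
      have := hA'.2.2.1.mapsTo (show z ∈ D by simpa using h3)
      simpa using this
    rw [mus_in h3, mus_in h4]
    exact h1
  · have h4 : ‖mob A z‖ = 1 := by
      have := hA'.2.2.2.1.mapsTo (show z ∈ SS by simpa using h3)
      simpa using this
    rw [mus_on h3, mus_on h4]
    simp
  · by_cases hd : den A z = 0
    · rw [hd]
      simp
    have hz : z ≠ 0 := by
      rintro rfl
      simp at h3
      linarith
    have hz' : conj z ≠ 0 := by simpa using hz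
    have hn : 0 < ‖z‖ := norm_pos_iff.2 hz
    have hni : ‖1 / conj z‖ = 1 / ‖z‖ := by rw [norm_div, norm_one, RCLike.norm_conj]
    have h4 : ‖1 / conj z‖ < 1 := by
      rw [hni, div_lt_one hn]
      exact h3
    have h5 := h2 hz
    have h6 : den A (1 / conj z) ≠ 0 := hA'.2.1 _ (by simpa using h4.le)
    have h7 : ‖mob A (1 / conj z)‖ < 1 := by
      have := hA'.2.2.1.mapsTo (show 1 / conj z ∈ D by simpa using h4)
      simpa using this
    have h8 := refl_mob hA hz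
    have h9 := refl_den hA hz
    obtain ⟨n, hn'⟩ : ∃ n, n = (A : Mat) 0 0 * z + (A : Mat) 0 1 := ⟨_, rfl⟩
    obtain ⟨d, hd'⟩ : ∃ d, d = den A z := ⟨_, rfl⟩
    rw [← hn'] at h9
    have hn0 : n ≠ 0 := by
      rintro rfl
      rw [h9] at h6
      simp at h6
    have hm : mob A z = n / d := by
      rw [hn', hd']
      rfl
    have hm0 : mob A z ≠ 0 := by
      rw [hm]
      exact div_ne_zero hn0 (hd' ▸ hd)
    have h10 : 1 < ‖mob A z‖ := by
      rw [h8, norm_div, norm_one, RCLike.norm_conj, div_lt_one (norm_pos_iff.2 hm0)] at h7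
      exact h7
    rw [mus_out h3, mus_out h10, ← h8, hm, ← hd']
    rw [h9] at h5
    have hd0 : d ≠ 0 := hd' ▸ hd
    have hd0' : conj d ≠ 0 := by simpa using hd0
    have hn0' : conj n ≠ 0 := by simpa using hn0
    have h11 := congrArg (fun x => conj x) h5
    simp only [map_mul, map_div₀, map_pow, Complex.conj_conj] at h11 ⊢
    obtain ⟨T, hT⟩ : ∃ T, T = conj (τ (mob A (1 / conj z))) := ⟨_, rfl⟩
    obtain ⟨t, ht⟩ : ∃ t, t = conj (τ (1 / conj z)) := ⟨_, rfl⟩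
    rw [← hT, ← ht] at h11 ⊢
    have h12 : T * n ^ 2 * conj z ^ 2 = t * conj n ^ 2 * z ^ 2 := by
      field_simp at h11
      linear_combination h11
    field_simp
    linear_combination h12

/-! ### the circle is preserved -/

lemma unit_refl {z : ℂ} (h : ‖z‖ = 1) : 1 / conj z = z := by
  have hz : z ≠ 0 := by
    rintro rfl
    simp at h
  have hz' : conj z ≠ 0 := by simpa using hz
  rw [div_eq_iff hz', Complex.mul_conj']
  rw [h]
  norm_num

lemma unit_of_refl {z : ℂ} (hz : z ≠ 0) (h : 1 / conj z = z) : ‖z‖ = 1 := by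
  have hz' : conj z ≠ 0 := by simpa using hz
  rw [div_eq_iff hz', Complex.mul_conj'] at h
  have h1 : ((‖z‖ ^ 2 : ℝ) : ℂ) = ((1 : ℝ) : ℂ) := by
    push_cast
    exact h.symm
  have h2 : ‖z‖ ^ 2 = 1 := Complex.ofReal_injective h1
  have h3 := norm_nonneg z
  nlinarith

lemma lt_of_cont {f : ℂ → ℂ} (hf : Continuous f) (h0 : f 0 = 0)
    (h1 : ∀ z, ‖f z‖ = 1 → ‖z‖ = 1) {z : ℂ} (hz : ‖z‖ < 1) : ‖f z‖ < 1 := by
  by_contra hc
  push Not at hc
  have hcont : Continuous (fun t : ℝ => ‖f (t * z)‖) :=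
    (hf.comp (Complex.continuous_ofReal.mul continuous_const)).norm
  have h2 := intermediate_value_Icc (zero_le_one (α := ℝ)) hcont.continuousOn
  obtain ⟨t, ht, h3⟩ := h2 (show (1 : ℝ) ∈ Icc _ _ from ⟨by simp [h0], by simpa using hc⟩)
  have h4 := h1 _ h3
  rw [norm_mul, Complex.norm_real, Real.norm_of_nonneg ht.1] at h4
  nlinarith [norm_nonneg z, ht.2, ht.1]

lemma norm_iff (hSYC : StQSYC) {k : ℝ} (hk : k < 1) {μ : ℂ → ℂ} (hμ : Bel k μ)
    (hs : ∀ z : ℂ, μ (1 / conj z) * conj z ^ 2 = conj (μ z) * z ^ 2) (h0 : nq μ 0 = 0) :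
    (∀ z, ‖nq μ z‖ = 1 ↔ ‖z‖ = 1) ∧ (∀ z, ‖nq μ z‖ < 1 ↔ ‖z‖ < 1) := by
  have hR := hSYC k hk μ hμ (ae_of_all _ hs)
  have h0' : (nq μ).symm 0 = 0 := by rw [Homeomorph.symm_apply_eq, h0]
  have e1 : ∀ z, ‖nq μ z‖ = 1 ↔ ‖z‖ = 1 := by
    intro z
    constructor
    · intro h
      have h1 : 1 / conj (nq μ z) = nq μ z := unit_refl h
      have h2 := (nq μ).injective ((hR z).trans h1)
      have hz : z ≠ 0 := by
        rintro rfl
        rw [h0] at h
        simp at h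
      exact unit_of_refl hz h2
    · intro h
      have h1 : 1 / conj z = z := unit_refl h
      have h2 := hR z
      rw [h1] at h2
      refine unit_of_refl ?_ h2.symm
      intro h3
      have h4 : z = 0 := (nq μ).injective (h3.trans h0.symm)
      rw [h4] at h
      simp at h
  refine ⟨e1, fun z => ⟨fun h => ?_, fun h => ?_⟩⟩
  · have h1 := lt_of_cont (nq μ).symm.continuous h0' (fun z hz => ?_) h
    · rwa [Homeomorph.symm_apply_apply] at h1
    · have h2 := (e1 ((nq μ).symm z)).2 hz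
      rwa [Homeomorph.apply_symm_apply] at h2
  · exact lt_of_cont (nq μ).continuous h0 (fun z hz => (e1 z).1 hz) h

lemma cpt_bd {f : ℂ → ℂ} (hf : Continuous f) (hlt : ∀ z : ℂ, ‖z‖ < 1 → ‖f z‖ < 1) {r : ℝ}
    (hr : r < 1) : ∃ r' : ℝ, r' < 1 ∧ 0 ≤ r' ∧ ∀ z : ℂ, ‖z‖ ≤ r → ‖f z‖ ≤ r' := by
  by_cases hr0 : 0 ≤ r
  · have hc : IsCompact (closedBall (0 : ℂ) r) := isCompact_closedBall 0 r
    obtain ⟨x, hx, hmax⟩ := hc.exists_isMaxOn ⟨0, by simpa using hr0⟩ (hf.norm.continuousOn)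
    refine ⟨‖f x‖, hlt x (lt_of_le_of_lt (by simpa using hx) hr), norm_nonneg _, fun z hz => ?_⟩
    exact hmax (show z ∈ closedBall (0 : ℂ) r by simpa using hz)
  · exact ⟨0, by norm_num, le_rfl, fun z hz => absurd ((norm_nonneg z).trans hz) hr0⟩

/-! ### matrices which preserve the disc -/

lemma su_of {p q r s : ℂ} (hdet : p * s - q * r = 1) (h1 : ‖p + q‖ = ‖r + s‖)
    (h2 : ‖-p + q‖ = ‖-r + s‖) (h3 : ‖p * Complex.I + q‖ = ‖r * Complex.I + s‖)
    (h4 : ‖q‖ < ‖s‖) : s = conj p ∧ r = conj q := by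
  have e1 : ‖p + q‖ ^ 2 = ‖r + s‖ ^ 2 := by rw [h1]
  have e2 : ‖-p + q‖ ^ 2 = ‖-r + s‖ ^ 2 := by rw [h2]
  have e3 : ‖p * Complex.I + q‖ ^ 2 = ‖r * Complex.I + s‖ ^ 2 := by rw [h3]
  simp only [Complex.sq_norm, Complex.normSq_apply, Complex.add_re, Complex.add_im,
    Complex.neg_re, Complex.neg_im, Complex.mul_re, Complex.mul_im, Complex.I_re,
    Complex.I_im, mul_zero, mul_one, zero_sub, zero_add, add_zero, sub_zero] at e1 e2 e3
  have E1 : p * conj q = r * conj s := by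
    apply Complex.ext
    · simp only [Complex.mul_re, Complex.conj_re, Complex.conj_im]
      linarith
    · simp only [Complex.mul_im, Complex.conj_re, Complex.conj_im]
      linarith
  have E2 : ‖p‖ ^ 2 + ‖q‖ ^ 2 = ‖r‖ ^ 2 + ‖s‖ ^ 2 := by
    simp only [Complex.sq_norm, Complex.normSq_apply]
    linarith
  obtain ⟨δ, hδ⟩ : ∃ δ : ℝ, δ = ‖s‖ ^ 2 - ‖q‖ ^ 2 := ⟨_, rfl⟩
  have hδ0 : 0 < δ := by
    rw [hδ]
    have := norm_nonneg q
    nlinarith
  have hδc : (δ : ℂ) = s * conj s - q * conj q := by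
    rw [Complex.mul_conj', Complex.mul_conj', hδ]
    push_cast
    ring
  have E3 : conj s = p * δ := by
    rw [hδc]
    linear_combination (-conj s) * hdet + q * E1
  have E4 : conj q = r * δ := by
    rw [hδc]
    linear_combination (-conj q) * hdet + s * E1
  have E5 : ‖s‖ = ‖p‖ * δ := by
    have := congrArg norm E3
    rwa [RCLike.norm_conj, norm_mul, Complex.norm_real, Real.norm_of_nonneg hδ0.le] at this
  have E6 : ‖q‖ = ‖r‖ * δ := by
    have := congrArg norm E4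
    rwa [RCLike.norm_conj, norm_mul, Complex.norm_real, Real.norm_of_nonneg hδ0.le] at this
  have E7 : δ = 1 := by
    have h5 : δ = δ ^ 2 * δ := by
      have h6 : δ = δ ^ 2 * (‖p‖ ^ 2 - ‖r‖ ^ 2) := by
        calc δ = ‖s‖ ^ 2 - ‖q‖ ^ 2 := hδ
          _ = (‖p‖ * δ) ^ 2 - (‖r‖ * δ) ^ 2 := by rw [← E5, ← E6]
          _ = _ := by ring
      have h7 : ‖p‖ ^ 2 - ‖r‖ ^ 2 = δ := by rw [hδ]; linarith
      rw [h7] at h6
      exact h6
    have h8 : (δ - 1) * (δ * (δ + 1)) = 0 := by linear_combination -h5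
    rcases mul_eq_zero.1 h8 with h9 | h9
    · linarith
    · exfalso
      have : 0 < δ * (δ + 1) := by positivity
      linarith
  rw [E7] at E3 E4
  constructor
  · rw [← Complex.conj_conj s, E3]
    simp
  · rw [E4]
    simp

/-! ### intertwining -/

lemma intw_iff {A B : SL} {w : ℂ → ℂ} : Intw A B w ↔ (∀ z, den A z = 0 ↔ den B (w z) = 0) ∧
    (∀ z, den A z ≠ 0 → w (mob A z) = mob B (w z)) ∧
    ((A : Mat) 1 0 = 0 ↔ (B : Mat) 1 0 = 0) ∧
    ((A : Mat) 1 0 ≠ 0 → w ((A : Mat) 0 0 / (A : Mat) 1 0) = (B : Mat) 0 0 / (B : Mat) 1 0) :=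
  Iff.rfl

lemma intw_id {A : SL} {w : ℂ → ℂ} (h : ∀ z, w z = z) : Intw A A w := by
  rw [intw_iff]
  simp [h]

lemma intw_quot {A A' B : SL} {H : ℂ ≃ₜ ℂ} {w : ℂ → ℂ} (h1 : Intw A A' H)
    (h2 : Intw A B (fun z => w (H z))) : Intw A' B w := by
  rw [intw_iff] at h1 h2 ⊢
  obtain ⟨a1, a2, a3, a4⟩ := h1
  obtain ⟨b1, b2, b3, b4⟩ := h2
  refine ⟨fun y => ?_, fun y hy => ?_, ?_, fun h => ?_⟩
  · obtain ⟨z, rfl⟩ := H.surjective y
    rw [← a1 z, b1 z]
  · obtain ⟨z, rfl⟩ := H.surjective y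
    have hz : den A z ≠ 0 := fun h => hy ((a1 z).1 h)
    rw [← a2 z hz]
    exact b2 z hz
  · rw [← a3, b3]
  · have hz : (A : Mat) 1 0 ≠ 0 := fun h' => h (a3.1 h')
    rw [← a4 hz]
    exact b4 hz

lemma nq_zero (hUNI : StQUNI) {μ : ℂ → ℂ} (hμ : ∀ z, μ z = 0) (ξ : ℂ) : nq μ ξ = ξ := by
  have hB : Bel 0 μ := by
    have h0 : μ = fun _ => (0 : ℂ) := funext hμ
    refine ⟨?_, fun z => ?_⟩
    · rw [h0]
      exact measurable_const
    · rw [hμ z]
      simp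
  have h1 : Sol μ (∅ : Set ℂ)ᶜ (Homeomorph.refl ℂ) := by
    rw [compl_empty]
    exact Pool.Agent.Helper68.QC.sol_zero isOpen_univ differentiableOn_id (ae_of_all _ hμ)
  have h2 := hUNI 0 (by norm_num) μ hB (Homeomorph.refl ℂ) rfl rfl ∅ finite_empty h1
  rw [← h2]
  rfl

lemma rep (hQUNI : StQUNI) (hQREP : StQREP) {Γ : Type} [Group Γ] (σ : Γ →* SL) {μ : ℂ → ℂ}
    {k : ℝ} (hk0 : 0 ≤ k) (hk1 : k < 1) (hμ : Bel k μ) (hi : ∀ γ, InvB (σ γ) μ) :
    ∃ σ' : Γ →* SL, ∀ γ, Intw (σ γ) (σ' γ) (nq μ) := by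
  obtain ⟨c, hc⟩ : ∃ c : ℝ, c = (1 + k) / 2 := ⟨_, rfl⟩
  have hc0 : 0 < c := by rw [hc]; linarith
  have hc1 : c < 1 := by rw [hc]; linarith
  have hck : k < c := by rw [hc]; linarith
  have hkc : k / c < 1 := by
    rw [div_lt_one hc0]
    exact hck
  have hb : ∀ t ∈ ball (0 : ℂ) 1, Bel (k / c) (fun z => t * (μ z / c)) := by
    intro t ht
    refine ⟨?_, fun z => ?_⟩
    · exact (hμ.meas.div_const _).const_mul _
    · rw [norm_mul, norm_div, Complex.norm_real, Real.norm_of_nonneg hc0.le]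
      have h1 : ‖t‖ ≤ 1 := by
        have : ‖t‖ < 1 := by simpa using ht
        exact this.le
      have h2 := hμ.le z
      calc ‖t‖ * (‖μ z‖ / c) ≤ 1 * (k / c) := by gcongr
        _ = k / c := one_mul _
  have hd : ∀ z, DifferentiableOn ℂ (fun t : ℂ => t * (μ z / c)) (ball (0 : ℂ) 1) := by
    intro z
    exact (differentiable_id.mul_const _).differentiableOn
  have hI : ∀ t ∈ ball (0 : ℂ) 1, ∀ γ, InvB (σ γ) (fun z => t * (μ z / c)) := by
    intro t _ γ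
    have h1 : ∀ᵐ z : ℂ, μ (mob (σ γ) z) * den (σ γ) z ^ 2 = μ z * conj (den (σ γ) z) ^ 2 := hi γ
    show ∀ᵐ z : ℂ, t * (μ (mob (σ γ) z) / c) * den (σ γ) z ^ 2 =
      t * (μ z / c) * conj (den (σ γ) z) ^ 2
    filter_upwards [h1] with z hz
    linear_combination (t / c) * hz
  have h00 : ∀ γ, Intw (σ γ) (σ γ) (nq ((fun t z : ℂ => t * (μ z / c)) 0)) :=
    fun γ => intw_id (nq_zero hQUNI (fun z => by simp))
  obtain ⟨R, -, -, h3⟩ := hQREP (k / c) hkc 0 1 (fun t z => t * (μ z / c)) hb hd Γ _ σ σ hI h00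
    one_pos
  refine ⟨R c, fun γ => ?_⟩
  have h4 := h3 (c : ℂ) (by
    simp only [mem_ball, dist_zero_right, Complex.norm_real, Real.norm_of_nonneg hc0.le]
    exact hc1) γ
  have h5 : (fun z => (c : ℂ) * (μ z / c)) = μ := by
    funext z
    have : (c : ℂ) ≠ 0 := by exact_mod_cast hc0.ne'
    field_simp
  have h6 : Intw (σ γ) (R c γ) (nq (fun z => (c : ℂ) * (μ z / c))) := h4
  rwa [h5] at h6

/-! ### composition -/

lemma pseudo {a b : ℂ} {K : ℝ} (hK0 : 0 ≤ K) (hK1 : K < 1) (ha : ‖a‖ ≤ K) (hb : ‖b‖ ≤ K) :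
    ‖a - b‖ ≤ 2 * K / (1 + K ^ 2) * ‖1 - conj b * a‖ := by
  have hid : ‖1 - conj b * a‖ ^ 2 - ‖a - b‖ ^ 2 = (1 - ‖a‖ ^ 2) * (1 - ‖b‖ ^ 2) := by
    simp only [Complex.sq_norm, Complex.normSq_apply, Complex.sub_re, Complex.sub_im,
      Complex.mul_re, Complex.mul_im, Complex.conj_re, Complex.conj_im, Complex.one_re,
      Complex.one_im]
    ring
  have hN : ‖1 - conj b * a‖ ≤ 1 + K ^ 2 := by
    calc ‖1 - conj b * a‖ ≤ ‖(1 : ℂ)‖ + ‖conj b * a‖ := norm_sub_le _ _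
      _ = 1 + ‖b‖ * ‖a‖ := by rw [norm_one, norm_mul, RCLike.norm_conj]
      _ ≤ 1 + K * K := by gcongr
      _ = 1 + K ^ 2 := by ring
  obtain ⟨N, hN'⟩ : ∃ N : ℝ, N = ‖1 - conj b * a‖ := ⟨_, rfl⟩
  rw [← hN'] at hid hN ⊢
  have hN0 : 0 ≤ N := hN' ▸ norm_nonneg _
  have h1 : (1 - K ^ 2) * (1 - K ^ 2) ≤ (1 - ‖a‖ ^ 2) * (1 - ‖b‖ ^ 2) := by
    have ha2 : ‖a‖ ^ 2 ≤ K ^ 2 := by gcongr
    have hb2 : ‖b‖ ^ 2 ≤ K ^ 2 := by gcongr
    have hK2 : K ^ 2 < 1 := by nlinarith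
    apply mul_le_mul <;> linarith
  have h2 : ‖a - b‖ ^ 2 ≤ (2 * K / (1 + K ^ 2) * N) ^ 2 := by
    have h3 : (2 * K / (1 + K ^ 2) * N) ^ 2 = N ^ 2 - (1 - K ^ 2) ^ 2 * (N / (1 + K ^ 2)) ^ 2 := by
      have : (1 + K ^ 2) ≠ 0 := by positivity
      field_simp
      ring
    have h4 : (N / (1 + K ^ 2)) ^ 2 ≤ 1 := by
      have h5 : N / (1 + K ^ 2) ≤ 1 := by
        rw [div_le_one (by positivity)]
        exact hN
      have h6 : 0 ≤ N / (1 + K ^ 2) := by positivity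
      nlinarith
    have h7 : (1 - K ^ 2) ^ 2 * (N / (1 + K ^ 2)) ^ 2 ≤ (1 - K ^ 2) ^ 2 * 1 := by gcongr
    rw [h3]
    nlinarith
  exact le_of_sq_le_sq h2 (by positivity)

end BCH

open BCH

theorem hBCH (hSUB : StSUB) (hMET : StMET) (hQEX : StQEX) (hQUNI : StQUNI) (hQCMP : StQCMP)
    (hQNUL : StQNUL) (hQREP : StQREP) (hQSYC : StQSYC) (hGINC : StGINC) : StBCH := by
  intro Γ _ σ ρ ρ' κ τ k k1 hS hk0 hk1 hτ hτ0 hτi hρ'
  -- (1)
  have hμb : Bel k1 (mus τ) := mus_bel hk0 hτ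
  have hμi : ∀ γ, InvB (σ γ) (mus τ) := fun γ => mus_inv hSUB (hS.fs.su γ) (hτi γ)
  have hH0 : nq (mus τ) 0 = 0 := (hQEX k1 hk1 _ hμb).zero
  obtain ⟨hN1, hN2⟩ := norm_iff hQSYC hk1 hμb (mus_sym τ) hH0
  -- (2)
  obtain ⟨σ', hσ'⟩ := rep hQUNI hQREP σ hk0 hk1 hμb hμi
  obtain ⟨H, hH⟩ : ∃ H : ℂ ≃ₜ ℂ, H = nq (mus τ) := ⟨_, rfl⟩
  have hσ'' : ∀ γ, Intw (σ γ) (σ' γ) H := by
    rw [hH]
    exact hσ'
  have hN1' : ∀ z, ‖H z‖ = 1 ↔ ‖z‖ = 1 := by
    rw [hH]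
    exact hN1
  have hN2' : ∀ z, ‖H z‖ < 1 ↔ ‖z‖ < 1 := by
    rw [hH]
    exact hN2
  have hH0' : H 0 = 0 := by
    rw [hH]
    exact hH0
  have hmD : ∀ γ (z : ℂ), ‖z‖ < 1 → mob (σ' γ) (H z) = H (mob (σ γ) z) ∧ ‖H (mob (σ γ) z)‖ < 1 := by
    intro γ z hz
    have hA := hSUB.1 (σ γ) (hS.fs.su γ)
    have hd : den (σ γ) z ≠ 0 := hA.2.1 z (by simpa using hz.le)
    refine ⟨((intw_iff.1 (hσ'' γ)).2.1 z hd).symm, (hN2' _).2 ?_⟩
    have := hA.2.2.1.mapsTo (show z ∈ D by simpa using hz)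
    simpa using this
  have hsu : ∀ γ, IsSU (σ' γ) := by
    intro γ
    have hA := hSUB.1 (σ γ) (hS.fs.su γ)
    have hI := intw_iff.1 (hσ'' γ)
    have hz : ∀ z : ℂ, ‖z‖ = 1 → ‖(σ' γ : Mat) 0 0 * z + (σ' γ : Mat) 0 1‖ =
        ‖(σ' γ : Mat) 1 0 * z + (σ' γ : Mat) 1 1‖ := by
      intro z hz
      obtain ⟨ζ, rfl⟩ := H.surjective z
      have hζ : ‖ζ‖ = 1 := (hN1' ζ).1 hz
      have hd : den (σ γ) ζ ≠ 0 := hA.2.1 ζ (by simpa using hζ.le)
      have hd' : den (σ' γ) (H ζ) ≠ 0 := fun h => hd ((hI.1 ζ).2 h)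
      have hm := hI.2.1 ζ hd
      have hn : ‖H (mob (σ γ) ζ)‖ = 1 := by
        refine (hN1' _).2 ?_
        have := hA.2.2.2.1.mapsTo (show ζ ∈ SS by simpa using hζ)
        simpa using this
      rw [hm] at hn
      unfold mob at hn
      unfold den at hd'
      rw [norm_div, div_eq_one_iff_eq (norm_ne_zero_iff.2 hd')] at hn
      exact hn
    have h0 : ‖(σ' γ : Mat) 0 1‖ < ‖(σ' γ : Mat) 1 1‖ := by
      obtain ⟨h1, h2⟩ := hmD γ 0 (by simp)
      rw [← h1, hH0'] at h2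
      have hd : den (σ γ) 0 ≠ 0 := hA.2.1 0 (by simp)
      have hd' : den (σ' γ) (H 0) ≠ 0 := fun h => hd ((hI.1 0).2 h)
      rw [hH0'] at hd'
      unfold den at hd'
      unfold mob at h2
      simp only [mul_zero, zero_add] at h2 hd'
      rwa [norm_div, div_lt_one (norm_pos_iff.2 hd')] at h2
    have hdet : (σ' γ : Mat) 0 0 * (σ' γ : Mat) 1 1 - (σ' γ : Mat) 0 1 * (σ' γ : Mat) 1 0 = 1 := by
      rw [← Matrix.det_fin_two]
      exact (σ' γ).det_coe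
    have e1 := hz 1 (by simp)
    have e2 := hz (-1) (by simp)
    have e3 := hz Complex.I (by simp)
    simp only [mul_one, mul_neg] at e1 e2
    exact su_of hdet e1 e2 e3 h0
  have hco : ∃ r : ℝ, r < 1 ∧ ∀ z ∈ D, ∃ γ, ‖mob (σ' γ) z‖ ≤ r := by
    obtain ⟨r0, hr0, h1⟩ := hS.fs.cocompact
    obtain ⟨r', hr', -, h2⟩ := cpt_bd H.continuous (fun z hz => (hN2' z).2 hz) hr0
    refine ⟨r', hr', fun z hz => ?_⟩
    obtain ⟨ζ, rfl⟩ := H.surjective z
    have hζ : ‖ζ‖ < 1 := (hN2' ζ).1 (by simpa using hz)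
    obtain ⟨γ, hγ⟩ := h1 ζ (by simpa using hζ)
    refine ⟨γ, ?_⟩
    rw [(hmD γ ζ hζ).1]
    exact h2 _ hγ
  have hdis : IsDiscrete σ' := by
    intro X
    obtain ⟨b, hb⟩ : ∃ b : ℝ, b = max 0 ((X - 2) / 4) := ⟨_, rfl⟩
    have hb0 : 0 ≤ b := by rw [hb]; exact le_max_left _ _
    have hb1 : (X - 2) / 4 ≤ b := by rw [hb]; exact le_max_right _ _
    have hr1 : b / (1 + b) < 1 := by
      rw [div_lt_one (by linarith)]
      linarith
    have hr0 : 0 ≤ b / (1 + b) := by positivity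
    have hlt : ∀ z : ℂ, ‖z‖ < 1 → ‖H.symm z‖ < 1 := by
      intro z hz
      refine (hN2' _).1 ?_
      rwa [H.apply_symm_apply]
    obtain ⟨r2, h2, h2', h3⟩ := cpt_bd H.symm.continuous hlt (r := √(b / (1 + b))) (by
      rw [Real.sqrt_lt' one_pos]
      simpa using hr1)
    refine (hS.fs.discrete (8 / (1 - r2) ^ 3)).subset ?_
    intro γ hγ
    have hγ' : hs (σ' γ : Mat) ≤ X := hγ
    have e1 := hMET.2.2.2.2.1 (σ' γ) (hsu γ)
    have e2 : dl 0 (mob (σ' γ) 0) ≤ b := by linarith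
    obtain ⟨e7, e8⟩ := hmD γ 0 (by simp)
    rw [← e7] at e8
    rw [hH0'] at e7 e8
    have e3 := (hMET.2.2.2.2.2.1 _ b (by simpa using e8) hb0).1 e2
    have e4 : ‖mob (σ' γ) 0‖ ≤ √(b / (1 + b)) := Real.le_sqrt_of_sq_le e3
    have e5 := h3 _ e4
    rw [e7, H.symm_apply_apply] at e5
    exact hSUB.2.2.2.2.2 (σ γ) 0 r2 (hS.fs.su γ) h2 (by simpa using h2') e5
  -- (3)
  obtain ⟨K, hK⟩ : ∃ K : ℝ, K = max k k1 := ⟨_, rfl⟩
  have hK1 : K < 1 := by rw [hK]; exact max_lt hS.k1 hk1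
  have hkK : k ≤ K := by rw [hK]; exact le_max_left _ _
  have hkK1 : k1 ≤ K := by rw [hK]; exact le_max_right _ _
  have hK0 : 0 ≤ K := hk0.trans hkK1
  have hb2 : Bel K (fun z => κ z + τ z) := by
    refine ⟨hS.bel.meas.add hτ.meas, fun z => ?_⟩
    rcases le_total ‖z‖ 1 with h1 | h1
    · rw [hS.in0 z h1, zero_add]
      exact (hτ.le z).trans hkK1
    · rw [hτ0 z h1, add_zero]
      exact (hS.bel.le z).trans hkK
  have hb1 : Bel K (mus τ) := ⟨hμb.meas, fun z => (hμb.le z).trans hkK1⟩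
  have hδ1 : 2 * K / (1 + K ^ 2) < 1 := by
    rw [div_lt_one (by positivity)]
    nlinarith [sq_nonneg (1 - K), mul_pos (sub_pos.2 hK1) (sub_pos.2 hK1)]
  have hδ0 : 0 ≤ 2 * K / (1 + K ^ 2) := by positivity
  obtain ⟨ν, hν, hν2, hν3⟩ := hQCMP K hK1 (fun z => κ z + τ z) (mus τ) hb2 hb1
    (2 * K / (1 + K ^ 2)) hδ1 (fun z => pseudo hK0 hK1 (hb2.le z) (hb1.le z))
  obtain ⟨δ, hδ⟩ : ∃ δ : ℝ, δ = 2 * K / (1 + K ^ 2) := ⟨_, rfl⟩
  rw [← hδ] at hν hδ0 hδ1
  obtain ⟨κ', hκ'⟩ : ∃ κ' : ℂ → ℂ, κ' = fun z => if 1 < ‖z‖ then ν z else 0 := ⟨_, rfl⟩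
  have hκb : Bel δ κ' := by
    rw [hκ']
    refine ⟨Measurable.ite (measurableSet_lt measurable_const measurable_norm) hν.meas
      measurable_const, fun z => ?_⟩
    show ‖if 1 < ‖z‖ then ν z else 0‖ ≤ δ
    split_ifs
    · exact hν.le z
    · rw [norm_zero]
      exact hδ0
  have hae : ∀ᵐ z : ℂ, ν z = κ' z := by
    have h1 : volume {z : ℂ | ‖z‖ < 1 ∧ ν (nq (mus τ) z) ≠ 0} = 0 := by
      rw [ae_iff] at hν3
      refine measure_mono_null ?_ hν3
      rintro z ⟨h2, h3⟩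
      show ¬ (‖ν (nq (mus τ) z)‖ * ‖1 - conj (mus τ z) * (κ z + τ z)‖ =
        ‖κ z + τ z - mus τ z‖)
      intro h4
      have h5 : κ z + τ z - mus τ z = 0 := by
        rw [hS.in0 z h2.le, mus_in h2]
        ring
      rw [h5, norm_zero, mul_eq_zero, norm_eq_zero, norm_eq_zero] at h4
      rcases h4 with h4 | h4
      · exact h3 h4
      · have h6 : conj (mus τ z) * (κ z + τ z) = 1 := by linear_combination -h4
        have h7 := congrArg norm h6
        rw [norm_mul, RCLike.norm_conj, norm_one] at h7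
        have h8 := hb1.le z
        have h9 : ‖κ z + τ z‖ ≤ K := hb2.le z
        have h10 : ‖mus τ z‖ * ‖κ z + τ z‖ ≤ K * K :=
          mul_le_mul h8 h9 (norm_nonneg _) hK0
        nlinarith
    have h2 := (hQNUL k1 hk1 _ hμb {z : ℂ | ‖z‖ < 1 ∧ ν (nq (mus τ) z) ≠ 0}).2 h1
    have h3 : volume (sphere (0 : ℂ) 1) = 0 := Measure.addHaar_sphere _ _ _
    rw [ae_iff]
    refine measure_mono_null ?_ (measure_union_null h2 h3)
    intro y hy
    have hy' : ν y ≠ κ' y := hy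
    rw [hκ'] at hy'
    have hy'' : ¬ (ν y = if 1 < ‖y‖ then ν y else 0) := hy'
    rcases lt_trichotomy ‖y‖ 1 with h4 | h4 | h4
    · left
      obtain ⟨z, rfl⟩ := (nq (mus τ)).surjective y
      refine ⟨z, ⟨(hN2 z).1 h4, fun h5 => hy'' ?_⟩, rfl⟩
      rw [if_neg (by linarith), h5]
    · right
      simpa using h4
    · exact absurd (by rw [if_pos h4]) hy''
  have hnq : nq ν = nq κ' := by
    have h1 := hQEX δ hδ1 ν hν
    obtain ⟨a, b, h2, h3⟩ := h1.sol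
    have h4 : Sol κ' (∅ : Set ℂ)ᶜ (nq ν) := by
      rw [compl_empty]
      refine ⟨a, b, h2, ?_⟩
      rw [Measure.restrict_univ] at h3 ⊢
      filter_upwards [h3, hae] with z h5 h6
      rw [h5, h6]
    exact hQUNI δ hδ1 κ' hκb (nq ν) h1.zero h1.one ∅ finite_empty h4
  have hfin : ∀ z, nq (fun z => κ z + τ z) z = nq κ' (nq (mus τ) z) := by
    intro z
    rw [hν2 z, hnq]
  have hint : ∀ γ, Intw (σ' γ) (ρ' γ) (nq κ') := by
    intro γ
    refine intw_quot (hσ' γ) ?_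
    have h1 := hρ' γ
    have h2 : (fun z => nq κ' (nq (mus τ) z)) = (nq (fun z => κ z + τ z) : ℂ → ℂ) := by
      funext z
      exact (hfin z).symm
    rw [h2]
    exact h1
  refine ⟨mus τ, κ', δ, σ', hμb, fun z hz => mus_in hz, hμi, hN2, hN1, hσ', ?_, hfin⟩
  refine ⟨⟨hsu, hdis, hco⟩, hδ0, hδ1, hκb, fun z hz => ?_, fun γ => ?_, hint⟩
  · rw [hκ']
    show (if 1 < ‖z‖ then ν z else 0) = 0
    rw [if_neg (by linarith)]
  · exact hGINC δ hδ1 κ' hκb (σ' γ) (ρ' γ) (hint γ)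

end Pool.Agent.Helper29.QP
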